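import Pool.Agent.Lib.MP_100fe7_ntU.FinalV

/-!
Closed formula for the Deligne periods `c^+(N)`, `c^-(N)` of every motive `N = ρ(M_1, …, M_t)` over
`ℚ` obtained from motives `M_i` over arbitrary number fields `F_i` by an algebraic representation
`ρ` of the `L`-group `(∏ i, GL(n_i)^{Hom(F_i, E)}) ⋊ Gal` of `∏ i, Res_{F_i/ℚ} GL(n_i)`.
-/

open Pool.Agent.MP100fe7U

theorem Pool.Agent.Results.MP_100fe7_nt.AllNumberFields.result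
    {ι : Type} [Fintype ι] [DecidableEq ι] (F : ι → Type) [∀ i, Field (F i)]
    [∀ i, NumberField (F i)] (E : Type) [Field E] [NumberField E] (hE : Split F E)
    (τ₀ : E →+* ℂ) (n : ι → ℕ) (w : ι → ℤ) (T : ∀ i, MType (F i) E (n i) (w i)) (κ : Type)
    [Fintype κ] [DecidableEq κ] (ρ : Rep F E n κ) (Φ : (E →+* ℂ) → Finset (Emb F E))
    (hΦ : IsChoice Φ) :
    (∀ (M : ∀ i, Datum (T i)) (τ : E →+* ℂ) (q : Emb F E) (a : ℤ),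
      ∃ v : ℂ, v ≠ 0 ∧ ∀ v', (M q.1).IsHodgePeriod τ q.2 a v' ↔ v' = v) ∧
    (∀ (M : ∀ i, Datum (T i)) (τ : E →+* ℂ) (q : Emb F E) (δ : ℤ), IsConj τ q.2 q.2 →
      (T q.1).IsScalar τ q.2 → δ = 1 ∨ δ = -1 →
        ∃ c : ℂ, c ≠ 0 ∧ ∀ c', (M q.1).IsRealPeriod τ q.2 δ c' ↔ c' = c) ∧
    (ρ.NoMiddle T → ∀ ε : E, ε = 1 ∨ ε = -1 →
      ρ.IsStep T hE τ₀ ε ((ρ.motWeight w + 1) / 2)) ∧
    ∀ (ε : E) (a₀ : ℤ), ε = 1 ∨ ε = -1 → ρ.IsStep T hE τ₀ ε a₀ →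
      ∃ (A B : Emb F ℂ → ℤ) (k : ι → ℤ) (S : Emb F E → ℤ → ℤ) (u : (E →+* ℂ) → E),
        ρ.IsExponents T hE τ₀ ε a₀ A B k S ∧ (∀ τ, u τ ≠ 0) ∧ ρ.IsGalRel T hE τ₀ ε Φ u ∧
        ∀ M : ∀ i, Datum (T i), (∃ x, ρ.IsPeriod M hE τ₀ ε x) ∧
          ∀ x, ρ.IsPeriod M hE τ₀ ε x → (∀ τ, x τ ≠ 0) ∧ ∃ e : E, e ≠ 0 ∧
            ∀ (τ : E →+* ℂ) (c d : Emb F E → ℂ) (v : Emb F E → ℤ → ℂ),
              (∀ q, IsConj τ q.2 q.2 → (T q.1).IsScalar τ q.2 →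
                (M q.1).IsRealPeriod τ q.2 1 (c q) ∧ (M q.1).IsRealPeriod τ q.2 (-1) (d q)) →
              (∀ q, ∀ a ∈ (T q.1).indices q.2, (M q.1).IsHodgePeriod τ q.2 a (v q a)) →
              x τ = τ e * τ (u τ) * ∏ q, Rep.factor M hE Φ A B k S τ c d v q :=
  all_number_fields F E hE τ₀ n w T κ ρ Φ hΦ
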