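import Pool.Agent.Lib.MP_100fe7_nt.CvKFinal
import Pool.Agent.Lib.MP_100fe7_nt.CvReal2

/-!
The group generated by the Deligne periods of all the motives `N = ρ(M_1, …, M_t)` without middle
classes, where the `M_i` are arbitrary pure motives and `ρ` runs over the algebraic representations
of the product of the groups `GL(M_i)`: modulo `E^×` it is contained in the group generated by the
determinants of the comparison isomorphisms and the Hodge periods `Q_a(M_i)` of all the `M_i` and
the `c^±(M_i)` of the `M_i` without middle classes, and under the condition `Good` on the Hodge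
types the two groups are equal, the Deligne periods of the tensor products of exterior powers of
the `M_i` generate, and the exponents are universal. The determinants (with middle classes), the
`c^±(M_i)` (without) and the `Q_a(M_i)` take arbitrary values. For motives `E` is a number field
and `R` is `E ⊗ ℂ`.
-/

open Pool.Agent.MP100fe7T Pool.Agent.MP100fe7Cv Pool.Agent.MP100fe7K

theorem Pool.Agent.Results.MP_100fe7_nt.ExactPeriodGroup.result {ι : Type} [Fintype ι]
    [DecidableEq ι] (σ : ι → Shape) (w : ι → ℤ) :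
    (∀ (E : Type) [Field E] [CharZero E] (R : Type) [CommRing R] [Algebra E R]
      (M : ∀ i, Datum R (σ i) (w i)),
      (∀ (κ : Type) [Fintype κ] [DecidableEq κ] (ρ : Rep E σ κ), ρ.NoMiddle M →
        ∀ ε : ℤ, ε = 1 ∨ ε = -1 → (∃ x : R, ρ.IsPeriod M (ε : E) x) ∧
          ∀ x : R, ρ.IsPeriod M (ε : E) x → IsUnit x) ∧
      (∀ i, NoMid (σ i) → ∀ ε : ℤ, ε = 1 ∨ ε = -1 → (∃ x : R, (M i).IsPeriod (ε : E) x) ∧
          ∀ x : R, (M i).IsPeriod (ε : E) x → IsUnit x) ∧
      (∀ i, ∀ a ∈ (M i).lowIndices, (∃ q : R, (M i).IsHodgePeriod a q) ∧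
        ∀ q : R, (M i).IsHodgePeriod a q → IsUnit q) ∧
      spanOver E (allPeriods E M) ≤ spanOver E (basicPeriods E M) ∧
      ((∀ i, Good σ w (fun i => (M i).p) i) →
        spanOver E (allPeriods E M) = spanOver E (basicPeriods E M) ∧
        spanOver E (tensorPeriods E M) = spanOver E (basicPeriods E M))) ∧
    (∀ p : ∀ i, Fin (σ i).n → ℤ, (∀ i, Good σ w p i) → ∀ i : ι,
      (∀ x : Fin (σ i).n, ∃ k : (List (ι × ℕ) × ℤ) →₀ ℤ,
        ∀ (E : Type) [Field E] [CharZero E] (R : Type) [CommRing R] [Algebra E R]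
          (M : ∀ i, Datum R (σ i) (w i)), (∀ i, (M i).p = p i) →
          ∀ u : Rˣ, (M i).IsHodgePeriod (w i - p i x) (u : R) → IsMonomial E M k u) ∧
      ∃ k : (List (ι × ℕ) × ℤ) →₀ ℤ,
        ∀ (E : Type) [Field E] [CharZero E] (R : Type) [CommRing R] [Algebra E R]
          (M : ∀ i, Datum R (σ i) (w i)), (∀ i, (M i).p = p i) →
          ∀ u : Rˣ, (u : R) = (M i).comp.det → IsMonomial E M k u) ∧
    ∀ (E : Type) [Field E] [CharZero E] (R : Type) [CommRing R] [Algebra E R]
      (p : ∀ i, Fin (σ i).n → ℤ), (∀ i j, w i < 2 * p i j) →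
      (∀ i, ¬ NoMid (σ i) → Even (w i)) → ∀ (x y D : ι → Rˣ) (z : ι → ℤ → Rˣ),
      ∃ M : ∀ i, Datum R (σ i) (w i), (∀ i, (M i).p = p i) ∧ ∀ i,
        (NoMid (σ i) → 0 < (σ i).n →
          (M i).IsPeriod (1 : E) (x i : R) ∧ (M i).IsPeriod (-1 : E) (y i : R)) ∧
        (¬ NoMid (σ i) → (M i).comp.det = D i) ∧
        ∀ a ∈ (M i).lowIndices, (M i).IsHodgePeriod a (z i a : R) := by
  refine ⟨fun E _ _ R _ _ M => ⟨fun κ _ _ ρ hmid ε hε => ⟨?_, fun x hx =>
    isUnit_period M ρ hmid hε hx⟩, fun i hi ε hε => unit_facts M i hi hε, fun i a ha =>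
    ⟨⟨_, (M i).isHodgePeriod_block a⟩, fun q hq => ?_⟩, all_le_basic M, fun hgood =>
    ⟨groups_eq M hgood, groups_eq_tensor M (fam0 σ) hgood⟩⟩, fun p hgood i =>
    ⟨fun x => uniform_hodge hgood i x, uniform_det hgood i⟩, fun E _ _ R _ _ p hp hw x y D z =>
    exists_family E σ w p hp hw x y D z⟩
  · exact Rep.exists_period ρ M _ ε (Rep.isStep_of_noMiddle ρ M hmid hε)
  · rw [(M i).hodgePeriod_eq a q hq]
    exact (M i).isUnit_lowBlock a ha
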