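import Pool.Agent.Lib.MP_100fe7_ntG.FinG

/-!
The group generated by the Deligne periods of all the motives `N = ρ(M)` over `ℚ`, where the `M i`
are pure motives without middle classes over totally real or CM fields `F i` and `ρ` runs over the
algebraic representations of the `L`-group of `∏ i, Res_{F i/ℚ} GL(n i)`: it is contained in the
group generated by `Eˣ`, the periods of the Artin motives of rank `1`, the periods of the
restrictions of scalars of the `M i` and the products of the Hodge periods of the `M i` over the
orbits of the group of those elements of the Galois group which preserve the Hodge types. Under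
`ParityCondition` (for example, if all weights are odd, or if one of the `M i` is the motive of an
elliptic curve over `ℚ`) the two groups are equal, and the periods of the sums of tensor products of
exterior powers of the conjugates of the `M i` generate. There are no further relations between the
generators.
-/

open Pool.Agent.MP100fe7U Pool.Agent.MP100fe7G

theorem Pool.Agent.Results.MP_100fe7_nt.PeriodGroupOverFields.result {ι : Type} [Fintype ι]
    [DecidableEq ι] (F : ι → Type) [∀ i, Field (F i)] [∀ i, NumberField (F i)] (E : Type)
    [Field E] [NumberField E] (hE : Split F E) (τ₀ : E →+* ℂ)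
    (hc : ∀ τ, conjElt hE τ = conjElt hE τ₀) (n : ι → ℕ) (w : ι → ℤ)
    (T : ∀ i, MType (F i) E (n i) (w i))
    (hmid : ∀ (i : ι) (φ : Hm F E i) (j : Fin (n i)), 2 * (T i).p φ j ≠ w i)
    (hs : ∀ (i : ι) (σ σ' : Hm F ℂ i), (T i).sgn σ = (T i).sgn σ')
    (hp : ∀ (i : ι) (φ : Hm F E i), Monotone ((T i).p φ)) (Φ : Finset (Emb F E))
    (hΦ : IsChoice fun _ : E →+* ℂ => Φ) :
    (∃ (c d D : Emb F E → Fun T) (v : Emb F E → ℤ → Fun T), IsLocal c d D v) ∧
    ∀ (c d D : Emb F E → Fun T) (v : Emb F E → ℤ → Fun T), IsLocal c d D v →
      periodGroup T hE τ₀ ≤ generated T hE τ₀ (localPeriods T hE τ₀ Φ c d D v) ∧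
      ((∃ b e, ParityCondition T b e) →
        periodGroup T hE τ₀ = generated T hE τ₀ (localPeriods T hE τ₀ Φ c d D v) ∧
        periodGroup T hE τ₀ = generated T hE τ₀ (tensorPeriods T hE τ₀)) ∧
      Independent T hE τ₀ Φ c d D v :=
  g_main F E hE τ₀ hc n w T hmid hs hp Φ hΦ
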