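import Pool.Agent.Lib.MP_100fe7_nt.G8Final

/-!
Multiplicative relations between the Deligne periods of the direct summands of all tensor
constructions on a motive `M` (a finite sum of pure motives): an exact criterion in terms of the
Lie algebra of the group `G` which fixes a given set `S` of endomorphisms of realisations, a bound
for the degree by the number of components of `G` (one component: the product is in `E`), and
finite generation of the group of all these periods modulo algebraic elements, with a bound for the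
number of generators.
-/

open Pool.Agent.MP100fe7G TensorProduct

theorem Pool.Agent.Results.MP_100fe7_nt.PeriodRelations.result
    (E : Type) [Field E] [NumberField E] (n : Type) [Fintype n] [DecidableEq n]
    (M : Datum E (E ⊗[ℚ] ℂ) n) (S : Fam n E)
    (hS : ∀ (k : ℕ) (a b : Fin k → ℕ), ∀ s ∈ S k a b, M.IsMor s.1 s.2) :
    (∀ (k : ℕ) (a b : Fin k → ℕ), ∀ N ∈ S k a b, N.1 * N.1 = N.1 → ∀ w, M.IsPure N.1 w →
      M.NoMiddle N.2 w → ∀ ε : ℤ, ε = 1 ∨ ε = -1 →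
        (∃ c, M.IsPeriod N.1 N.2 ε ((w + 1) / 2) c) ∧
          ∀ c, M.IsPeriod N.1 N.2 ε ((w + 1) / 2) c → IsUnit c) ∧
    (∀ (I : Type) [Fintype I] (p : I → Summand n E) (m : I → ℤ) (u : I → (E ⊗[ℚ] ℂ)ˣ),
      (∀ i, M.IsPer S (p i) (u i : E ⊗[ℚ] ℂ)) →
      (M.CritF S p m → M.SmallAlg S (∏ i, u i ^ m i)) ∧
      (M.TrMax S → IsAlgebraic ℚ ((∏ i, u i ^ m i : (E ⊗[ℚ] ℂ)ˣ) : E ⊗[ℚ] ℂ) →
        M.CritF S p m)) ∧
    ∃ (s : ℕ) (v : Fin s → (E ⊗[ℚ] ℂ)ˣ), s ≤ 2 * Fintype.card n ∧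
      (∀ τ : (E ⊗[ℚ] ℂ) →+* ℂ,
        s + Module.finrank ℂ (M.brF S τ) ≤ Module.finrank E (lieF M.wt S)) ∧
      (∀ i, v i ∈ M.perGroup S) ∧
      (∀ u ∈ M.perGroup S, ∃ m : Fin s → ℤ, M.SmallAlg S (u * ∏ i, v i ^ m i)) ∧
      (M.TrMax S → ∀ m : Fin s → ℤ,
        IsAlgebraic ℚ ((∏ i, v i ^ m i : (E ⊗[ℚ] ℂ)ˣ) : E ⊗[ℚ] ℂ) → m = 0) :=
  ⟨fun k a b N hN he _ hk hmid _ hε => period_exists M (hS k a b N hN) he hk hmid hε,
    fun _ _ _ _ _ h => ⟨fun hcrit => fam_small M S hS h hcrit,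
      fun ⟨τ, hτ⟩ halg => fam_crit M S hS h τ hτ halg⟩,
    fam_generated M S hS⟩
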